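import Pool.Agent.Helper78.JT.Goals3
import Pool.Agent.Helper78.DT.Final

/-!
# Packet JT-BRJ (project JT of helper78, MP_34c247_lc): brackets of a tuple
-/

set_option autoImplicit false

namespace Pool.Agent.Helper88.JT

open Pool.Agent.Helper78.DT Pool.Agent.Helper78.JT

open scoped Classical

theorem brj : BrjStmt := by
  intro V _ _ η k t r hη hη1 hk
  refine ⟨?_, ?_⟩
  · intro f hf
    have h : ∀ j, ∃ g : DL V, g.Sublist (f j) ∧ (g.length : ℝ) * k ^ η ≤ (2 / η) ^ t ∧
        ∀ x, (lo t (2 ^ t * k) g x → ev (f j) x = true) ∧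
          (ev (f j) x = true → hi t (2 ^ t * k) g x) := fun j =>
      Pool.Agent.Helper13.DT.brk keyS V η k t (f j) hη hη1 hk (hf j)
    choose g h1 h2 h3 using h
    refine ⟨g, h1, h2, ?_⟩
    intro x hx j
    have hb : ¬ Bad t (2 ^ t * k) (g j) x := fun hb => hx ⟨j, hb⟩
    have hiff : ev (f j) x = true ↔ ev (g j) x = true := by
      constructor
      · intro h
        rcases (h3 j x).2 h with h4 | h4
        · exact h4
        · exact absurd h4 hb
      · intro h
        exact (h3 j x).1 ⟨h, hb⟩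
    cases hA : ev (f j) x <;> cases hB : ev (g j) x
    · rfl
    · rw [hA, hB] at hiff; simp at hiff
    · rw [hA, hB] at hiff; simp at hiff
    · rfl
  · intro s g hg
    have h1 : pr (BadJ t k g) ≤ ∑ j : Fin r, pr (Bad t k (g j)) := by
      have h2 := pr_exists_le (Finset.univ : Finset (Fin r)) (fun j x => Bad t k (g j) x)
      refine le_trans (pr_mono ?_) h2
      rintro x ⟨j, hj⟩
      exact ⟨j, Finset.mem_univ j, hj⟩
    have h3 : (0 : ℝ) ≤ k ^ (1 - η) * (2 / η) ^ t := by positivity
    have h2 : ∀ j : Fin r, pr (Bad t k (g j)) ≤ (s + 1) * (k ^ (1 - η) * (2 / η) ^ t) := by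
      intro j
      refine (Pool.Agent.Helper15.DT.bdp (Pool.Agent.Helper89.DT.clo keyS) V η k t (g j) hη hη1
        hk.le).trans ?_
      refine mul_le_mul_of_nonneg_right ?_ h3
      have : ((g j).length : ℝ) ≤ s := by exact_mod_cast hg j
      linarith
    calc pr (BadJ t k g) ≤ ∑ j : Fin r, pr (Bad t k (g j)) := h1
      _ ≤ ∑ _j : Fin r, ((s : ℝ) + 1) * (k ^ (1 - η) * (2 / η) ^ t) :=
          Finset.sum_le_sum fun j _ => h2 j
      _ = r * ((s + 1) * (k ^ (1 - η) * (2 / η) ^ t)) := by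
          rw [Finset.sum_const, Finset.card_univ, Fintype.card_fin, nsmul_eq_mul]

end Pool.Agent.Helper88.JT
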